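import Pool.Agent.W902.C6.Stm

/-!
Project C6: equal words give `Iso2`.
-/

set_option autoImplicit false

open Pool.Agent.H800R3 Pool.Agent.W902.C6

namespace Pool.Agent.W917.C6.Code

/-- matching two strictly increasing lists with equal labels -/
theorem match_lists {β : Type} (g g' : ℝ → β) : ∀ (L L' : List ℝ), L.Pairwise (· < ·) →
    L'.Pairwise (· < ·) → L.map g = L'.map g' →
    ∃ F : ℝ → ℝ, (∀ x ∈ L, F x ∈ L' ∧ g' (F x) = g x) ∧
      (∀ x ∈ L, ∀ y ∈ L, x < y → F x < F y) ∧ ∀ x' ∈ L', ∃ x ∈ L, F x = x' := by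
  intro L
  induction L with
  | nil =>
    intro L' _ _ h
    have : L' = [] := by simpa using h.symm
    subst this
    exact ⟨id, by simp, by simp, by simp⟩
  | cons a l ih =>
    intro L' hL hL' h
    rcases L' with _ | ⟨a', l'⟩
    · simp at h
    simp only [List.map_cons, List.cons.injEq] at h
    obtain ⟨h1, h2⟩ := h
    rw [List.pairwise_cons] at hL hL'
    obtain ⟨F, hF1, hF2, hF3⟩ := ih l' hL.2 hL'.2 h2
    have hne : ∀ x ∈ l, x ≠ a := fun x hx => (hL.1 x hx).ne'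
    refine ⟨Function.update F a a', ?_, ?_, ?_⟩
    · intro x hx
      rcases List.mem_cons.1 hx with rfl | hx
      · simp [h1]
      · rw [Function.update_of_ne (hne x hx)]
        exact ⟨List.mem_cons_of_mem _ (hF1 x hx).1, (hF1 x hx).2⟩
    · intro x hx y hy hxy
      rcases List.mem_cons.1 hx with h3 | h3
      · rcases List.mem_cons.1 hy with h4 | h4
        · exact absurd hxy (by rw [h3, h4]; exact lt_irrefl _)
        · rw [h3, Function.update_self, Function.update_of_ne (hne y h4)]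
          exact hL'.1 _ (hF1 y h4).1
      · rcases List.mem_cons.1 hy with h4 | h4
        · have := hL.1 x h3
          rw [h4] at hxy
          exact absurd hxy (not_lt.2 this.le)
        · rw [Function.update_of_ne (hne x h3), Function.update_of_ne (hne y h4)]
          exact hF2 x h3 y h4 hxy
    · intro x' hx'
      rcases List.mem_cons.1 hx' with rfl | h4
      · exact ⟨a, List.mem_cons_self, Function.update_self _ _ _⟩
      · obtain ⟨x, hx, hxe⟩ := hF3 x' h4
        exact ⟨x, List.mem_cons_of_mem _ hx, by rw [Function.update_of_ne (hne x hx)]; exact hxe⟩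

theorem piece (A T A' T' : Finset ℝ) (I : Set ℝ) (h : word A T I = word A' T' I) :
    ∃ F : ℝ → ℝ, (∀ x ∈ posns A T, x ∈ I → F x ∈ posns A' T' ∧ F x ∈ I ∧
        lett A' T' (F x) = lett A T x) ∧
      (∀ x ∈ posns A T, x ∈ I → ∀ y ∈ posns A T, y ∈ I → x < y → F x < F y) ∧
      ∀ x' ∈ posns A' T', x' ∈ I → ∃ x ∈ posns A T, x ∈ I ∧ F x = x' := by
  classical
  unfold word at h
  obtain ⟨F, h1, h2, h3⟩ := match_lists (lett A T) (lett A' T') _ _
    ((Finset.sortedLT_sort _).pairwise) ((Finset.sortedLT_sort _).pairwise) h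
  simp only [Finset.mem_sort, Finset.mem_filter] at h1 h2 h3
  refine ⟨F, fun x hx hI => ?_, fun x hx hI y hy hI' => h2 x ⟨hx, hI⟩ y ⟨hy, hI'⟩,
    fun x' hx' hI => ?_⟩
  · obtain ⟨⟨h4, h5⟩, h6⟩ := h1 x ⟨hx, hI⟩
    exact ⟨h4, h5, h6⟩
  · obtain ⟨x, ⟨h4, h5⟩, h6⟩ := h3 x' ⟨hx', hI⟩
    exact ⟨x, h4, h5, h6⟩

lemma mem_posns_A {A T : Finset ℝ} {x : ℝ} (h : x ∈ A) : x ∈ posns A T := by
  classical
  unfold posns
  exact Finset.mem_union_left _ h

lemma mem_posns_T {A T : Finset ℝ} {x : ℝ} (h : x ∈ T) : x⁻¹ ∈ posns A T := by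
  classical
  unfold posns
  exact Finset.mem_union_right _ (Finset.mem_image_of_mem _ h)

lemma lett_A {A T A' T' : Finset ℝ} {x y : ℝ} (h : lett A' T' y = lett A T x) :
    y ∈ A' ↔ x ∈ A := by
  classical
  have := congrArg Prod.fst h
  simpa [lett] using this

lemma lett_T {A T A' T' : Finset ℝ} {x y : ℝ} (h : lett A' T' y = lett A T x) :
    y⁻¹ ∈ T' ↔ x⁻¹ ∈ T := by
  classical
  have := congrArg Prod.snd h
  simpa [lett] using this

/-- the glued map -/
theorem glue (A T A' T' : Finset ℝ)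
    (h1 : word A T (Set.Iio 0) = word A' T' (Set.Iio 0))
    (h0 : lett A T 0 = lett A' T' 0)
    (h2 : word A T (Set.Ioo 0 1) = word A' T' (Set.Ioo 0 1))
    (h01 : lett A T 1 = lett A' T' 1)
    (h3 : word A T (Set.Ioi 1) = word A' T' (Set.Ioi 1)) :
    ∃ F : ℝ → ℝ, F 0 = 0 ∧ F 1 = 1 ∧
      (∀ x, x ∈ posns A T ∨ x = 0 ∨ x = 1 → lett A' T' (F x) = lett A T x) ∧
      (∀ x, x ∈ posns A T ∨ x = 0 ∨ x = 1 → ∀ y, y ∈ posns A T ∨ y = 0 ∨ y = 1 →
        x < y → F x < F y) ∧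
      ∀ x' ∈ posns A' T', ∃ x, (x ∈ posns A T ∨ x = 0 ∨ x = 1) ∧ F x = x' := by
  classical
  obtain ⟨F1, a1, b1, c1⟩ := piece A T A' T' _ h1
  obtain ⟨F2, a2, b2, c2⟩ := piece A T A' T' _ h2
  obtain ⟨F3, a3, b3, c3⟩ := piece A T A' T' _ h3
  let F : ℝ → ℝ := fun x => if x < 0 then F1 x else if x = 0 then 0 else
    if x < 1 then F2 x else if x = 1 then 1 else F3 x
  have e1 : ∀ x, x < 0 → F x = F1 x := fun x hx => if_pos hx
  have e0 : F 0 = 0 := by simp [F]
  have e01 : F 1 = 1 := by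
    simp only [F]
    rw [if_neg (by norm_num), if_neg (by norm_num), if_neg (by norm_num)]
    simp
  have e2 : ∀ x, 0 < x → x < 1 → F x = F2 x := fun x hx hx1 => by
    simp only [F]
    rw [if_neg hx.not_gt, if_neg hx.ne', if_pos hx1]
  have e3 : ∀ x, 1 < x → F x = F3 x := fun x hx => by
    have hx0 : 0 < x := one_pos.trans hx
    simp only [F]
    rw [if_neg hx0.not_gt, if_neg hx0.ne', if_neg hx.not_gt, if_neg hx.ne']
  -- classification
  have cls : ∀ x, x ∈ posns A T ∨ x = 0 ∨ x = 1 →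
      (x < 0 ∧ x ∈ posns A T) ∨ x = 0 ∨ (0 < x ∧ x < 1 ∧ x ∈ posns A T) ∨ x = 1 ∨
        (1 < x ∧ x ∈ posns A T) := by
    intro x hx
    rcases hx with hx | hx | hx
    · rcases lt_trichotomy x 0 with h | h | h
      · exact Or.inl ⟨h, hx⟩
      · exact Or.inr (Or.inl h)
      · rcases lt_trichotomy x 1 with h' | h' | h'
        · exact Or.inr (Or.inr (Or.inl ⟨h, h', hx⟩))
        · exact Or.inr (Or.inr (Or.inr (Or.inl h')))
        · exact Or.inr (Or.inr (Or.inr (Or.inr ⟨h', hx⟩)))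
    · exact Or.inr (Or.inl hx)
    · exact Or.inr (Or.inr (Or.inr (Or.inl hx)))
  have r1 : ∀ x, x < 0 → x ∈ posns A T → F x < 0 := fun x h hx => by
    rw [e1 x h]; exact (a1 x hx h).2.1
  have r2 : ∀ x, 0 < x → x < 1 → x ∈ posns A T → 0 < F x ∧ F x < 1 := fun x h h' hx => by
    rw [e2 x h h']; exact (a2 x hx ⟨h, h'⟩).2.1
  have r3 : ∀ x, 1 < x → x ∈ posns A T → 1 < F x := fun x h hx => by
    rw [e3 x h]; exact (a3 x hx h).2.1
  refine ⟨F, e0, e01, ?_, ?_, ?_⟩
  · intro x hx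
    rcases cls x hx with ⟨h, hp⟩ | h | ⟨h, h', hp⟩ | h | ⟨h, hp⟩
    · rw [e1 x h]; exact (a1 x hp h).2.2
    · rw [h, e0]; exact h0.symm
    · rw [e2 x h h']; exact (a2 x hp ⟨h, h'⟩).2.2
    · rw [h, e01]; exact h01.symm
    · rw [e3 x h]; exact (a3 x hp h).2.2
  · intro x hx y hy hxy
    rcases cls x hx with ⟨h, hp⟩ | h | ⟨h, h', hp⟩ | h | ⟨h, hp⟩ <;>
    rcases cls y hy with ⟨k, kp⟩ | k | ⟨k, k', kp⟩ | k | ⟨k, kp⟩
    · rw [e1 x h, e1 y k]; exact b1 x hp h y kp k hxy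
    · rw [k, e0]; exact r1 x h hp
    · exact (r1 x h hp).trans (r2 y k k' kp).1
    · rw [k, e01]; exact (r1 x h hp).trans one_pos
    · exact (r1 x h hp).trans (one_pos.trans (r3 y k kp))
    · exfalso; linarith
    · exfalso; linarith
    · rw [h, e0]; exact (r2 y k k' kp).1
    · rw [h, k, e0, e01]; exact one_pos
    · rw [h, e0]; exact one_pos.trans (r3 y k kp)
    · exfalso; linarith
    · exfalso; linarith
    · rw [e2 x h h', e2 y k k']; exact b2 x hp ⟨h, h'⟩ y kp ⟨k, k'⟩ hxy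
    · rw [k, e01]; exact (r2 x h h' hp).2
    · exact (r2 x h h' hp).2.trans (r3 y k kp)
    · exfalso; linarith
    · exfalso; linarith
    · exfalso; linarith
    · exfalso; linarith
    · rw [h, e01]; exact r3 y k kp
    · exfalso; linarith
    · exfalso; linarith
    · exfalso; linarith
    · exfalso; linarith
    · rw [e3 x h, e3 y k]; exact b3 x hp h y kp k hxy
  · intro x' hx'
    rcases lt_trichotomy x' 0 with h | h | h
    · obtain ⟨x, hx, hI, he⟩ := c1 x' hx' h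
      exact ⟨x, Or.inl hx, by rw [e1 x hI]; exact he⟩
    · exact ⟨0, Or.inr (Or.inl rfl), by rw [e0, h]⟩
    · rcases lt_trichotomy x' 1 with h' | h' | h'
      · obtain ⟨x, hx, hI, he⟩ := c2 x' hx' ⟨h, h'⟩
        exact ⟨x, Or.inl hx, by rw [e2 x hI.1 hI.2]; exact he⟩
      · exact ⟨1, Or.inr (Or.inr rfl), by rw [e01, h']⟩
      · obtain ⟨x, hx, hI, he⟩ := c3 x' hx' h'
        exact ⟨x, Or.inl hx, by rw [e3 x hI]; exact he⟩

/-- signs of differences -/
lemma sign_sub_of {F : ℝ → ℝ} {Q : ℝ → Prop} (hF : ∀ x, Q x → ∀ y, Q y → x < y → F x < F y)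
    {x y : ℝ} (hx : Q x) (hy : Q y) : SignType.sign (F x - F y) = SignType.sign (x - y) := by
  rcases lt_trichotomy x y with h | h | h
  · rw [sign_neg (sub_neg.2 h), sign_neg (sub_neg.2 (hF x hx y hy h))]
  · rw [h, sub_self, sub_self]
  · rw [sign_pos (sub_pos.2 h), sign_pos (sub_pos.2 (hF y hy x hx h))]

lemma sign_inv' (x : ℝ) : SignType.sign x⁻¹ = SignType.sign x := by
  rcases lt_trichotomy x 0 with h | h | h
  · rw [sign_neg h, sign_neg (inv_lt_zero.2 h)]
  · rw [h, inv_zero]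
  · rw [sign_pos h, sign_pos (inv_pos.2 h)]

theorem main : S_code := by
  intro A T A' T' h1 h0 h2 h01 h3
  obtain ⟨F, F0, F1, hl, hm, hs⟩ := glue A T A' T' h1 h0 h2 h01 h3
  set Q : ℝ → Prop := fun x => x ∈ posns A T ∨ x = 0 ∨ x = 1 with hQ
  have q0 : Q 0 := Or.inr (Or.inl rfl)
  have q1 : Q 1 := Or.inr (Or.inr rfl)
  have qA : ∀ s ∈ A, Q s := fun s hs => Or.inl (mem_posns_A hs)
  have qT : ∀ t ∈ T, Q t⁻¹ := fun t ht => Or.inl (mem_posns_T ht)
  have sF : ∀ x, Q x → SignType.sign (F x) = SignType.sign x := by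
    intro x hx
    have := sign_sub_of hm hx q0
    rwa [F0, sub_zero, sub_zero] at this
  have sh : ∀ t ∈ T, SignType.sign ((F t⁻¹)⁻¹) = SignType.sign t := by
    intro t ht
    rw [sign_inv', sF _ (qT t ht), sign_inv']
  have key : ∀ x, Q x → ∀ t ∈ T, SignType.sign (F x * (F t⁻¹)⁻¹ - 1) =
      SignType.sign (x * t - 1) := by
    intro x hx t ht
    by_cases h : t = 0
    · subst h
      rw [inv_zero, F0, inv_zero, mul_zero, mul_zero]
    · have hF : F t⁻¹ ≠ 0 := by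
        intro e
        have := sF _ (qT t ht)
        rw [e, sign_zero, sign_inv'] at this
        exact h (sign_eq_zero_iff.1 this.symm)
      have e1 : F x * (F t⁻¹)⁻¹ - 1 = (F t⁻¹)⁻¹ * (F x - F t⁻¹) := by
        rw [mul_sub, inv_mul_cancel₀ hF, mul_comm]
      have e2 : x * t - 1 = t * (x - t⁻¹) := by
        rw [mul_sub, mul_inv_cancel₀ h, mul_comm]
      rw [e1, e2, sign_mul, sign_mul, sh t ht, sign_sub_of hm hx (qT t ht)]
  refine ⟨F, fun t => (F t⁻¹)⁻¹, ?_, ?_, ?_, ?_, ?_, ?_, ?_, ?_, ?_⟩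
  · intro s hs
    exact (lett_A (hl s (qA s hs))).2 hs
  · intro s' hs'
    obtain ⟨x, hx, he⟩ := hs s' (mem_posns_A hs')
    refine ⟨x, (lett_A (hl x hx)).1 (by rw [he]; exact hs'), he⟩
  · intro t ht
    refine (lett_T (hl _ (qT t ht))).2 ?_
    rw [inv_inv]; exact ht
  · intro t' ht'
    obtain ⟨x, hx, he⟩ := hs t'⁻¹ (mem_posns_T ht')
    refine ⟨x⁻¹, (lett_T (hl x hx)).1 (by rw [he, inv_inv]; exact ht'), ?_⟩
    show (F x⁻¹⁻¹)⁻¹ = t'
    rw [inv_inv, he, inv_inv]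
  · intro s hs s' hs' hss
    exact hm s (qA s hs) s' (qA s' hs') hss
  · intro t ht t' ht' htt
    show (F t⁻¹)⁻¹ < (F t'⁻¹)⁻¹
    have s1 := sh t ht
    have s2 := sh t' ht'
    have f1 := sF _ (qT t ht)
    have f2 := sF _ (qT t' ht')
    rw [sign_inv'] at f1 f2
    rcases lt_trichotomy t 0 with h | h | h
    · rw [sign_neg h, sign_eq_neg_one_iff] at s1 f1
      rcases lt_trichotomy t' 0 with h' | h' | h'
      · rw [sign_neg h', sign_eq_neg_one_iff] at s2 f2
        have h4 : t'⁻¹ < t⁻¹ := (inv_lt_inv_of_neg h' h).2 htt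
        have h5 := hm _ (qT t' ht') _ (qT t ht) h4
        exact (inv_lt_inv_of_neg f1 f2).2 h5
      · rw [show SignType.sign t' = 0 by rw [h', sign_zero], sign_eq_zero_iff] at s2
        rw [s2]; exact s1
      · rw [sign_pos h', sign_eq_one_iff] at s2
        exact s1.trans s2
    · rw [show SignType.sign t = 0 by rw [h, sign_zero], sign_eq_zero_iff] at s1
      rw [h] at htt
      rw [sign_pos htt, sign_eq_one_iff] at s2
      rw [s1]; exact s2
    · have h' := h.trans htt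
      rw [sign_pos h, sign_eq_one_iff] at s1 f1
      rw [sign_pos h', sign_eq_one_iff] at s2 f2
      have h4 : t'⁻¹ < t⁻¹ := (inv_lt_inv₀ h' h).2 htt
      have h5 := hm _ (qT t' ht') _ (qT t ht) h4
      exact (inv_lt_inv₀ f1 f2).2 h5
  · intro s hs t ht
    exact key s (qA s hs) t ht
  · intro s hs
    have := sign_sub_of hm (qA s hs) q1
    rwa [F1] at this
  · intro t ht
    have := key 1 q1 t ht
    rwa [F1, one_mul, one_mul] at this

end Pool.Agent.W917.C6.Code
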